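import Pool.Agent.Run7.h342.MD.Final
import Pool.Agent.Run7.h342.MD.Noe

/-!
The singular locus of the moduli spaces `M_d^N` of degree `d` endomorphisms of `ℙ^N`, `N ≥ 2`.

Set-up (`Pool.Agent.Run7.h342.MD.Defs`, with `n = N + 1`). A self-map of `ℙ^N` of degree `d` is
given by `n` forms of degree `d` in `n` variables without common zero besides the origin, i.e. by an
element of `U n d k`, the set of all vectors of coefficients `c : Fin n × Sym (Fin n) d → k` such that
`ev c x = 0` only for `x = 0`; here `ev c x` are the values of the forms at `x`. `U n d k` is the affine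
cone over `End_d^N`. `Inv n d k` is the algebra of the functions `φ : U n d k → k` which are of the form
`P / Q` with polynomials `P`, `Q` in the coefficients, `Q` without zeros on `U n d k`, and which are
invariant under conjugation by `GL_n(k)`: `φ c' = φ c` whenever `g ∘ c = c' ∘ g` as maps. Since the
scalar matrices are included and `k` is algebraically closed, these are the regular functions on
`End_d^N` which are invariant under `PGL_{N+1}`, and `M_d^N = Spec (Inv n d k)`. The point of `M_d^N`
given by `f` is the prime ideal `pt f` of the functions which vanish at `f`.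

The theorem says that the local ring of `M_d^N` at the point of `f` is not regular as soon as `f` has
an automorphism besides the identity. (`Inv` is noetherian.) The converse is known. So the singular
locus of `M_d^N` is the set of all classes of maps `f` with `Aut(f) ≠ 1`, for all `N ≥ 2`, `d ≥ 2`.

Authors of the pieces of the proof: helper198, helper234, helper267, helper464, helper594, helper622,
helper675, helper711, helper713, helper779, helper890, helper939, helper992, helper999, and
helper342 (interface, paper proof, pieces CON and NOE, assembly). The Reynolds functional of `GL_n`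
is from the starting file `Pool.Agent.Helper819.Reyn`.
-/

namespace Pool.Agent.Results.MP_807a54_ag.SingularLocus

open MvPolynomial Run7.h342.MD

/-- Let `N ≥ 2`, `d ≥ 2`, `k` an algebraically closed field of characteristic zero, and let `f` be a
self-map of `ℙ^N` of degree `d` with an automorphism `g ≠ 1`: `g` is an invertible matrix which is
not scalar, and `f (g x) = a g (f x)` for all `x`, with a constant `a`. Then the local ring of the
moduli space `M_d^N` at the point of `f` is not a regular local ring. -/
theorem result (N d : ℕ) (hN : 2 ≤ N) (hd : 2 ≤ d) (k : Type) [Field k] [IsAlgClosed k]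
    [CharZero k] :
    IsNoetherianRing (Inv (N + 1) d k) ∧
    ∀ (f : U (N + 1) d k) (g : GL (Fin (N + 1)) k),
      (∀ a : k, (g : Matrix (Fin (N + 1)) (Fin (N + 1)) k) ≠ a • (1 : Matrix _ _ k)) →
      (∃ a : k, ∀ x : Fin (N + 1) → k, ev f.1 (g.1.mulVec x) = a • g.1.mulVec (ev f.1 x)) →
      ¬ IsRegularLocalRing (Localization.AtPrime (pt f)) := by
  have hn : 3 ≤ N + 1 := by omega
  refine ⟨?_, ?_⟩
  · have h1 := t_RES (N + 1) d k (Run7.h622.MD.t_ELIM (N + 1) d k hn hd)
      (Run7.h234.MD.t_INC (N + 1) d k hn hd (Run7.h890.MD.t_INCA (N + 1) d k hn hd))
    have h2 := Run7.h992.MD.t_REPU (N + 1) d k hn hd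
    exact t_NOE (N + 1) d k h1 h2 (Run7.h999.MD.t_EXP hn hd h1 h2)
      (Run7.h779.MD.t_REY (N + 1) k)
  · rintro f g hg ⟨a, hf⟩
    refine final (N + 1) d k hn hd f ⟨g, ?_, a⁻¹, ?_⟩
    · rintro ⟨b, hb⟩
      exact hg b hb
    · have ha : a ≠ 0 := by
        rintro rfl
        have h1 : (fun _ => 1 : Fin (N + 1) → k) = 0 := by
          apply f.2
          have h2 := hf ((g⁻¹ : GL (Fin (N + 1)) k).1.mulVec (fun _ => 1))
          rw [zero_smul, mulVec_inv_mulVec] at h2
          exact h2
        have h3 := congrFun h1 0
        simp at h3
      apply act_eq_of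
      intro x
      rw [ev_smul, hf, smul_smul, inv_mul_cancel₀ ha, one_smul]

end Pool.Agent.Results.MP_807a54_ag.SingularLocus
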